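import Pool.Agent.Helper6.E.Defs
import Pool.Agent.Helper31.W.DimBound

/-!
# MP_75608d_al, packet E3 (handoff 329): lower bound through nested averages
-/

namespace Pool.Agent.Helper3.E

open Matrix Equiv Pool.Agent.Helper15.An Pool.Agent.Helper6.E
open scoped ComplexOrder

section low
variable {d : Type} [Fintype d] [DecidableEq d] {ι : Type}

/-- products of lazy averages -/
noncomputable def wl (u : ι → Matrix d d ℂ) : List ι → Matrix d d ℂ
  | [] => 1
  | a :: l => wl u l * ((1 / 2 : ℝ) • (1 + u a))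

theorem qf_conj (A X : Matrix d d ℂ) (w : d → ℂ) : qf (Aᴴ * X * A) w = qf X (A *ᵥ w) := by
  unfold qf
  rw [star_mulVec, ← Matrix.dotProduct_mulVec, Matrix.mulVec_mulVec, Matrix.mulVec_mulVec,
    Matrix.mul_assoc]

theorem qf_parallelogram (X : Matrix d d ℂ) (p q : d → ℂ) :
    qf X (p + q) + qf X (p - q) = 2 * qf X p + 2 * qf X q := by
  unfold qf
  rw [Matrix.mulVec_add, Matrix.mulVec_sub, star_add, star_sub]
  simp only [add_dotProduct, dotProduct_add, sub_dotProduct, dotProduct_sub, Complex.add_re,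
    Complex.sub_re]
  ring

theorem qf_vec_smul (X : Matrix d d ℂ) (c : ℝ) (w : d → ℂ) : qf X (c • w) = c ^ 2 * qf X w := by
  unfold qf
  rw [Matrix.mulVec_smul, dotProduct_smul]
  have : star (c • w) = c • star w := by
    ext i
    simp
  rw [this, smul_dotProduct]
  simp only [Complex.real_smul, Complex.mul_re, Complex.ofReal_re, Complex.ofReal_im, zero_mul,
    sub_zero]
  ring

theorem qf_avg_le {X : Matrix d d ℂ} (hX : ∀ w, 0 ≤ qf X w) (p q : d → ℂ) :
    qf X ((1 / 2 : ℝ) • (p + q)) ≤ (1 / 2) * (qf X p + qf X q) := by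
  rw [qf_vec_smul]
  have := qf_parallelogram X p q
  have h := hX (p - q)
  linarith

theorem nest_nonneg {u : ι → Matrix d d ℂ} {P : Matrix d d ℂ} (hP : ∀ w, 0 ≤ qf P w)
    (l : List ι) : ∀ w, 0 ≤ qf (nest u P l) w := by
  induction l with
  | nil => exact hP
  | cons a l ih =>
    intro w
    rw [nest, qf_smul, qf_add, qf_conj]
    have h1 := ih w
    have h2 := ih (u a *ᵥ w)
    linarith

theorem wl_le_nest {u : ι → Matrix d d ℂ} {P : Matrix d d ℂ} (hP : ∀ w, 0 ≤ qf P w)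
    (l : List ι) : ∀ w, qf ((wl u l)ᴴ * P * wl u l) w ≤ qf (nest u P l) w := by
  induction l with
  | nil =>
    intro w
    simp [wl, nest]
  | cons a l ih =>
    intro w
    rw [wl, nest, qf_smul, qf_add, qf_conj (u a)]
    have e : (wl u l * ((1 / 2 : ℝ) • (1 + u a)))ᴴ * P * (wl u l * ((1 / 2 : ℝ) • (1 + u a))) =
        ((1 / 2 : ℝ) • (1 + u a))ᴴ * ((wl u l)ᴴ * P * wl u l) * ((1 / 2 : ℝ) • (1 + u a)) := by
      rw [conjTranspose_mul]
      simp only [Matrix.mul_assoc]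
    rw [e, qf_conj]
    refine (ih _).trans ?_
    rw [Matrix.smul_mulVec, Matrix.add_mulVec, Matrix.one_mulVec]
    exact qf_avg_le (nest_nonneg hP l) _ _

theorem re_dot_le (v x : d → ℂ) :
    (star v ⬝ᵥ x).re ≤ Real.sqrt (nrm2 v) * Real.sqrt (nrm2 x) := by
  have h1 : (star v ⬝ᵥ x).re ≤ ∑ i, ‖v i‖ * ‖x i‖ := by
    unfold dotProduct
    rw [Complex.re_sum]
    refine Finset.sum_le_sum fun i _ => ?_
    refine (Complex.re_le_norm _).trans ?_
    rw [norm_mul]
    simp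
  exact h1.trans (Real.sum_mul_le_sqrt_mul_sqrt _ _ _)

theorem qf_wl_le {u : ι → Matrix d d ℂ} {P : Matrix d d ℂ} (hP : P.PosSemidef) (hPP : P * P = P)
    (v : d → ℂ) (hv : nrm2 v = 1) (hPv : P *ᵥ v = v) (l : List ι) :
    qf (wl u l) v ≤ Real.sqrt (qf (nest u P l) v) := by
  have hH : Pᴴ = P := hP.isHermitian.eq
  have e1 : qf (wl u l) v = (star v ⬝ᵥ (P *ᵥ (wl u l *ᵥ v))).re := by
    unfold qf
    conv_lhs => rw [← hPv]
    rw [star_mulVec, hH, ← Matrix.dotProduct_mulVec, hPv]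
  rw [e1]
  refine (re_dot_le _ _).trans ?_
  rw [hv, Real.sqrt_one, one_mul]
  apply Real.sqrt_le_sqrt
  refine le_trans (le_of_eq ?_) (wl_le_nest (fun w => qf_nonneg hP w) l v)
  rw [nrm2_mulVec, hH, hPP, qf_conj]

theorem pow_eq_sum_wl [Fintype ι] (u : ι → Matrix d d ℂ) (J : ℕ) :
    (∑ a, (1 / 2 : ℝ) • (1 + u a)) ^ J = ∑ l : Fin J → ι, wl u (List.ofFn l) := by
  induction J with
  | zero => simp [wl]
  | succ J ih =>
    rw [pow_succ, ih, Finset.sum_mul_sum, Finset.sum_comm, ← Fintype.sum_prod_type']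
    refine Fintype.sum_equiv (Fin.consEquiv (fun _ : Fin (J + 1) => ι)) _ _ ?_
    rintro ⟨a, l⟩
    have e : (Fin.consEquiv (fun _ : Fin (J + 1) => ι)) (a, l) = (Fin.cons a l : Fin (J + 1) → ι) := rfl
    rw [e, List.ofFn_cons]
    rfl

theorem unitary_qf_ge {u : Matrix d d ℂ} (hu : uᴴ * u = 1) (w : d → ℂ) :
    0 ≤ qf ((1 / 2 : ℝ) • (1 + u)) w := by
  have h := nrm2_nonneg ((1 + u) *ᵥ w)
  rw [nrm2_mulVec] at h
  have e : (1 + u)ᴴ * (1 + u) = 1 + u + uᴴ + uᴴ * u := by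
    rw [conjTranspose_add, conjTranspose_one]
    noncomm_ring
  rw [e, hu, qf_add, qf_add, qf_add, qf_conjTranspose] at h
  rw [qf_smul, qf_add]
  linarith

theorem lower [Fintype ι] (u : ι → Matrix d d ℂ) (hu : ∀ a, (u a)ᴴ * u a = 1)
    (hsym : (∑ a, u a).IsHermitian) {P : Matrix d d ℂ} (hP : P.PosSemidef) (hPP : P * P = P)
    (v : d → ℂ) (hv : nrm2 v = 1) (hPv : P *ᵥ v = v) (c : ℝ) (hc0 : 0 ≤ c)
    (hc : (Fintype.card ι : ℝ) * c ≤ qf (∑ a, (1 / 2 : ℝ) • (1 + u a)) v) (J : ℕ) :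
    (Fintype.card ι : ℝ) ^ J * c ^ J ≤
      ∑ l : Fin J → ι, Real.sqrt (qf (nest u P (List.ofFn l)) v) := by
  have hQH : (∑ a, (1 / 2 : ℝ) • (1 + u a)).IsHermitian := by
    rw [← Finset.smul_sum, Finset.sum_add_distrib, Finset.sum_const, Finset.card_univ]
    unfold Matrix.IsHermitian
    rw [conjTranspose_smul, conjTranspose_add, hsym.eq, conjTranspose_smul, conjTranspose_one]
    simp
  have hQ : (∑ a, (1 / 2 : ℝ) • (1 + u a)).PosSemidef := by
    apply posSemidef_of_qf hQH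
    intro w
    rw [qf_sum]
    exact Finset.sum_nonneg fun a _ => unitary_qf_ge (hu a) w
  rw [← mul_pow]
  have h1 : ((Fintype.card ι : ℝ) * c) ^ J ≤ (qf (∑ a, (1 / 2 : ℝ) • (1 + u a)) v) ^ J :=
    pow_le_pow_left₀ (by positivity) hc J
  refine h1.trans ((Pool.Agent.Helper31.W.qf_pow_le hQ v hv J).trans ?_)
  rw [pow_eq_sum_wl, qf_sum]
  exact Finset.sum_le_sum fun l _ => qf_wl_le hP hPP v hv hPv _

end low

end Pool.Agent.Helper3.E
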