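import Mathlib

/-!
# MP_75608d_al, packet E1b (handoff 327): the number of conjugacy classes of `S_n` is
subexponential
-/

namespace Pool.Agent.Helper3.E

open Equiv

/-- Two lists of positive naturals with the same (zero-padded) entries are equal. -/
lemma list_ext_getD : ∀ (L L' : List ℕ), (∀ x ∈ L, 0 < x) → (∀ x ∈ L', 0 < x) →
    (∀ j, L.getD j 0 = L'.getD j 0) → L = L'
  | [], [], _, _, _ => rfl
  | [], b :: l', _, h', h => by
      have := h 0
      have hb := h' b (by simp)
      simp at this
      omega
  | a :: l, [], h0, _, h => by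
      have := h 0
      have hb := h0 a (by simp)
      simp at this
      omega
  | a :: l, b :: l', h0, h', h => by
      have e0 := h 0
      simp at e0
      have ih := list_ext_getD l l' (fun x hx => h0 x (by simp [hx]))
        (fun x hx => h' x (by simp [hx])) (fun j => by
          have := h (j + 1)
          simpa using this)
      rw [e0, ih]

/-- The count of `x` in a multiset of naturals times `x` is at most the sum. -/
lemma count_mul_le_sum (m : Multiset ℕ) (x : ℕ) : m.count x * x ≤ m.sum := by
  have h : Multiset.replicate (m.count x) x ≤ m := Multiset.le_count_iff_replicate_le.1 le_rfl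
  have h2 : (Multiset.replicate (m.count x) x).sum ≤ m.sum := by
    obtain ⟨t, ht⟩ := Multiset.le_iff_exists_add.1 h
    have e : m.sum = (Multiset.replicate (m.count x) x).sum + t.sum := by
      conv_lhs => rw [ht]
      rw [Multiset.sum_add]
    omega
  simpa [Multiset.sum_replicate] using h2

lemma card_mul_le_sum (m : Multiset ℕ) (s : ℕ) (h : ∀ x ∈ m, s ≤ x) :
    Multiset.card m * s ≤ m.sum := by
  have := Multiset.card_nsmul_le_sum h
  simpa using this

lemma filter_sum_le (m : Multiset ℕ) (s : ℕ) : (m.filter (s < ·)).sum ≤ m.sum := by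
  have h := Multiset.filter_add_not (fun x => s < x) m
  calc (m.filter (s < ·)).sum ≤ (m.filter (s < ·)).sum + (m.filter (fun x => ¬ s < x)).sum :=
        Nat.le_add_right _ _
    _ = m.sum := by rw [← Multiset.sum_add, h]

/-- The code of a multiset. -/
noncomputable def code (n s : ℕ) (m : Multiset ℕ) : (Fin s → Fin (n + 1)) × (Fin s → Fin (n + 1)) :=
  (fun j => ⟨min (m.count (j.1 + 1)) n, by omega⟩,
   fun j => ⟨min (((m.filter (s < ·)).sort (· ≤ ·)).getD j.1 0) n, by omega⟩)

lemma code_inj (n s : ℕ) (hs : n < s * s) (m m' : Multiset ℕ) (hm : m.sum ≤ n) (hm' : m'.sum ≤ n)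
    (h0 : ∀ x ∈ m, 0 < x) (h0' : ∀ x ∈ m', 0 < x) (h : code n s m = code n s m') : m = m' := by
  have h1 := congrArg Prod.fst h
  have h2 := congrArg Prod.snd h
  simp only [code] at h1 h2
  have c1 : ∀ j, j < s → m.count (j + 1) = m'.count (j + 1) := by
    intro j hj
    have := congrFun h1 ⟨j, hj⟩
    simp only [Fin.mk.injEq] at this
    have e1 : m.count (j + 1) ≤ n := by
      have := count_mul_le_sum m (j + 1)
      nlinarith
    have e2 : m'.count (j + 1) ≤ n := by
      have := count_mul_le_sum m' (j + 1)
      nlinarith
    omega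
  have len : ∀ m : Multiset ℕ, m.sum ≤ n →
      ((m.filter (s < ·)).sort (· ≤ ·)).length < s := by
    intro m hm
    rw [Multiset.length_sort]
    have e := card_mul_le_sum (m.filter (s < ·)) s (fun x hx => (Multiset.mem_filter.1 hx).2.le)
    have e2 := filter_sum_le m s
    by_contra hcon
    push Not at hcon
    have : s * s ≤ Multiset.card (m.filter (s < ·)) * s := Nat.mul_le_mul_right s hcon
    omega
  have ent : ∀ m : Multiset ℕ, m.sum ≤ n → ∀ j,
      ((m.filter (s < ·)).sort (· ≤ ·)).getD j 0 ≤ n := by
    intro m hm j
    by_cases hj : j < ((m.filter (s < ·)).sort (· ≤ ·)).length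
    · rw [List.getD_eq_getElem _ _ hj]
      have hmem : ((m.filter (s < ·)).sort (· ≤ ·))[j] ∈ m.filter (s < ·) := by
        rw [← Multiset.mem_sort (r := (· ≤ ·))]
        exact List.getElem_mem hj
      have hmem' := (Multiset.mem_filter.1 hmem).1
      exact (Multiset.le_sum_of_mem hmem').trans hm
    · rw [List.getD_eq_default _ _ (by omega)]
      omega
  have L : (m.filter (s < ·)).sort (· ≤ ·) = (m'.filter (s < ·)).sort (· ≤ ·) := by
    apply list_ext_getD
    · intro x hx
      rw [Multiset.mem_sort] at hx
      exact h0 x (Multiset.mem_filter.1 hx).1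
    · intro x hx
      rw [Multiset.mem_sort] at hx
      exact h0' x (Multiset.mem_filter.1 hx).1
    · intro j
      by_cases hj : j < s
      · have := congrFun h2 ⟨j, hj⟩
        simp only [Fin.mk.injEq] at this
        have e1 := ent m hm j
        have e2 := ent m' hm' j
        omega
      · rw [List.getD_eq_default _ _ (by have := len m hm; omega),
          List.getD_eq_default _ _ (by have := len m' hm'; omega)]
  have F : m.filter (s < ·) = m'.filter (s < ·) := by
    rw [← Multiset.sort_eq (m.filter (s < ·)) (· ≤ ·), L, Multiset.sort_eq]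
  ext x
  by_cases hx0 : x = 0
  · subst hx0
    rw [Multiset.count_eq_zero_of_notMem (fun hh => by have := h0 0 hh; omega),
      Multiset.count_eq_zero_of_notMem (fun hh => by have := h0' 0 hh; omega)]
  · by_cases hxs : x ≤ s
    · have := c1 (x - 1) (by omega)
      rwa [Nat.sub_add_cancel (by omega)] at this
    · rw [← Multiset.count_filter_of_pos (p := fun x => s < x) (by omega : s < x),
        ← Multiset.count_filter_of_pos (p := fun x => s < x) (by omega : s < x) (s := m'), F]

theorem conj_perm_card (n : ℕ) :
    Nat.card (ConjClasses (Perm (Fin n))) ≤ (n + 1) ^ (2 * (Nat.sqrt n + 1)) := by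
  set s := Nat.sqrt n + 1 with hs
  have hns : n < s * s := Nat.lt_succ_sqrt n
  let F : ConjClasses (Perm (Fin n)) → (Fin s → Fin (n + 1)) × (Fin s → Fin (n + 1)) :=
    fun c => code n s (Quotient.out c).cycleType
  have hF : Function.Injective F := by
    intro c c' h
    have e : (Quotient.out c).cycleType = (Quotient.out c').cycleType := by
      apply code_inj n s hns _ _ _ _ _ _ h
      · rw [Perm.sum_cycleType]
        simpa using Finset.card_le_univ (Quotient.out c).support
      · rw [Perm.sum_cycleType]
        simpa using Finset.card_le_univ (Quotient.out c').support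
      · intro x hx
        have := Perm.two_le_of_mem_cycleType hx
        omega
      · intro x hx
        have := Perm.two_le_of_mem_cycleType hx
        omega
    have hc := Perm.isConj_iff_cycleType_eq.2 e
    rw [← Quotient.out_eq c, ← Quotient.out_eq c']
    exact ConjClasses.mk_eq_mk_iff_isConj.2 hc
  calc Nat.card (ConjClasses (Perm (Fin n)))
      ≤ Nat.card ((Fin s → Fin (n + 1)) × (Fin s → Fin (n + 1))) :=
        Nat.card_le_card_of_injective F hF
    _ = (n + 1) ^ (2 * s) := by
        rw [Nat.card_eq_fintype_card, Fintype.card_prod, Fintype.card_fun, Fintype.card_fin,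
          Fintype.card_fin, ← pow_add, two_mul]

end Pool.Agent.Helper3.E
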